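import Pool.Agent.Q82.QD.Stm

set_option autoImplicit false

/-! Job QD-VCONV2. -/

open MeasureTheory Filter Topology Real Set
open Pool.Agent.Q82.QC (E Om pp lg bd pot mol Ctl HolderConv S_MASS S_POT0 S_POT3 S_POTH S_POTL S_MOL
  S_MOLI)
open Pool.Agent.Q82.QD

namespace Pool.Agent.Q119.QD

theorem mem_Om_of {x : E} (hx : ‖x‖ ≤ 3 / 2) : x ∈ Om := by
  have h1 : ‖x 0‖ ≤ ‖x‖ := PiLp.norm_apply_le x 0
  rw [Real.norm_eq_abs] at h1
  have h2 := abs_le.1 (h1.trans hx)
  exact ⟨by linarith [h2.1], by linarith [h2.2]⟩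

theorem vconv2 (h1 : S_APP2) (h2 : S_POT0) : S_VCONV2 := by
  intro F a ha N e hN he ⟨C, hC, hCtl⟩ hmol
  rw [Metric.tendstoUniformlyOn_iff]
  intro ε hε
  set η : ℝ := min (1 / 4) (ε / 100) with hη
  have hη0 : 0 < η := lt_min (by norm_num) (by positivity)
  have hη1 : η ≤ 1 / 4 := min_le_left _ _
  have hη2 : η ≤ ε / 100 := min_le_right _ _
  obtain ⟨δ, hδ, hpot⟩ := h2 C hC η hη0
  have ev1 := hN.eventually (h1 F a ha η hη0)
  have ev2 := hCtl δ hδ
  have ev3 : ∀ᶠ k : ℕ in atTop, 1 / ((k : ℝ) + 1) < η :=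
    (tendsto_one_div_add_atTop_nhds_zero_nat (𝕜 := ℝ)).eventually (gt_mem_nhds hη0)
  filter_upwards [ev1, ev2, ev3] with k k1 k2 k3
  intro x hx
  have hx' : ‖x‖ ≤ 3 / 2 := by
    rw [Metric.mem_ball, dist_zero_right] at hx
    exact hx.le
  have a1 := k1 x hx'
  have a2 := hmol k x hx'
  have a3 := hpot (e k) (gg F a (N k)) (he k).1 (he k).2 k2 x (mem_Om_of hx')
  set w : ℝ := W F a (N k) x with hw
  set p : ℝ := pot (e k) (gg F a (N k)) x with hp
  set m : ℝ := mol (e k) (gg F a (N k)) x with hm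
  set g : ℝ := gg F a (N k) x with hg
  set b : ℝ := B F (N k) x with hb
  have hexp : 0 < Real.exp (4 * w) := Real.exp_pos _
  have a4 : |b + m - 6 * Real.exp (4 * w)| ≤ 2 * η * (6 * Real.exp (4 * w)) := by
    have e1 : b + m - 6 * Real.exp (4 * w) = (b + g - 6 * Real.exp (4 * w)) + (m - g) := by ring
    rw [e1]
    refine (abs_add_le _ _).trans ?_
    have e2 : 1 / ((k : ℝ) + 1) * (6 * Real.exp (4 * w)) ≤ η * (6 * Real.exp (4 * w)) := by
      apply mul_le_mul_of_nonneg_right k3.le (by positivity)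
    linarith
  set t : ℝ := (b + m) * Real.exp (-(4 * w)) - 6 with ht
  have hinv : Real.exp (4 * w) * Real.exp (-(4 * w)) = 1 := by
    rw [← Real.exp_add]
    simp
  have a5 : |t| ≤ 12 * η := by
    have e1 : t = (b + m - 6 * Real.exp (4 * w)) * Real.exp (-(4 * w)) := by
      rw [ht]
      linear_combination 6 * hinv
    rw [e1, abs_mul, abs_of_pos (Real.exp_pos (-(4 * w)))]
    calc |b + m - 6 * Real.exp (4 * w)| * Real.exp (-(4 * w))
        ≤ 2 * η * (6 * Real.exp (4 * w)) * Real.exp (-(4 * w)) := by gcongr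
      _ = 12 * η * (Real.exp (4 * w) * Real.exp (-(4 * w))) := by ring
      _ = 12 * η := by rw [hinv, mul_one]
  have hp4 : |-(4 * p)| ≤ 1 := by
    rw [abs_neg, abs_mul, abs_of_pos (by norm_num : (0 : ℝ) < 4)]
    linarith
  have a6 : |Real.exp (-(4 * p)) - 1| ≤ 8 * η := by
    refine (Real.abs_exp_sub_one_le hp4).trans ?_
    rw [abs_neg, abs_mul, abs_of_pos (by norm_num : (0 : ℝ) < 4)]
    linarith
  have a7 : |Real.exp (-(4 * p))| ≤ 3 := by
    have e1 : Real.exp (-(4 * p)) = (Real.exp (-(4 * p)) - 1) + 1 := by ring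
    rw [e1]
    refine (abs_add_le _ _).trans ?_
    rw [abs_one]
    linarith
  have e0 : (b + m) * Real.exp (-(4 * (w + p))) - 6 =
      t * Real.exp (-(4 * p)) + 6 * (Real.exp (-(4 * p)) - 1) := by
    have e1 : Real.exp (-(4 * (w + p))) = Real.exp (-(4 * w)) * Real.exp (-(4 * p)) := by
      rw [← Real.exp_add]
      congr 1
      ring
    rw [e1, ht]
    ring
  rw [dist_comm, Real.dist_eq, e0]
  calc |t * Real.exp (-(4 * p)) + 6 * (Real.exp (-(4 * p)) - 1)|
      ≤ |t| * |Real.exp (-(4 * p))| + 6 * |Real.exp (-(4 * p)) - 1| := by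
        refine (abs_add_le _ _).trans ?_
        rw [abs_mul, abs_mul, abs_of_pos (by norm_num : (0 : ℝ) < 6)]
    _ ≤ 12 * η * 3 + 6 * (8 * η) := by gcongr
    _ = 84 * η := by ring
    _ < ε := by linarith

end Pool.Agent.Q119.QD
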